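import Pool.Agent.R484.NCb

/-!
# The sign conjecture for dg categories in terms of endomorphisms which represent the trace
-/

set_option autoImplicit false
set_option linter.unusedSectionVars false

open CategoryTheory Limits MonoidalCategory
open Pool.Agent.Y112.SR Pool.Agent.Y112.KD Pool.Agent.Y112.SC Pool.Agent.R484.NC

namespace Pool.Agent.N144.NC

universe v u w

section

variable {C : Type u} [Category.{v} C] [Preadditive C] [Linear ℚ C] [MonoidalCategory C]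
  [MonoidalPreadditive C] [MonoidalLinear ℚ C] [SymmetricCategory C] [RightRigidCategory C]
  {K : Type w} [Field K] (R : SuperRealisation C K)

/-- The endomorphism `w` represents the trace: the number of `w ∘ h` is the trace (without sign) of
`h` on the realisation, for all endomorphisms `h`. -/
def RepresentsTrace (hU : UnitQ C) {M : C} (w : M ⟶ M) : Prop :=
  ∀ h : M ⟶ M, ((ctr hU (w ≫ h) : ℚ) : K) =
    LinearMap.trace K (R.H.obj M) (R.H.map h).hom

variable {R}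

theorem RepresentsTrace.even {hU : UnitQ C} {M : C} {w : M ⟶ M} (hw : RepresentsTrace R hU w) :
    RepresentsEven R ((2⁻¹ : ℚ) • (𝟙 M + w)) := by
  have hc := R_charZero R
  intro h
  have h1 : ((2⁻¹ : ℚ) • (𝟙 M + w)) ≫ h = (2⁻¹ : ℚ) • (h + w ≫ h) := by
    rw [Linear.smul_comp, Preadditive.add_comp, Category.id_comp]
  rw [h1, ← ctr_eq R hU, ctr_smul, ctr_add]
  push_cast
  rw [hw h, ctr_eq R hU, evenTrace, ModuleCat.hom_smul, ModuleCat.hom_add, map_smul, map_add,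
    smul_eq_mul, str]
  ring

theorem RepresentsTrace.one {hU : UnitQ C} {M : C} {w : M ⟶ M} (hw : RepresentsTrace R hU w) :
    ctr hU w = totalDim R M := by
  have hc := R_charZero R
  have h0 := R.finite M
  have h1 := hw (𝟙 M)
  rw [Category.comp_id, CategoryTheory.Functor.map_id, ModuleCat.hom_id] at h1
  have h2 : LinearMap.trace K (R.H.obj M) LinearMap.id = (totalDim R M : K) := by
    exact LinearMap.trace_one K (R.H.obj M)
  rw [h2] at h1
  exact_mod_cast h1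

/-- the square of `(1 + w) / 2` -/
theorem sq_half {M : C} (w : M ⟶ M) :
    ((2⁻¹ : ℚ) • (𝟙 M + w)) ≫ ((2⁻¹ : ℚ) • (𝟙 M + w)) =
      (4⁻¹ : ℚ) • (𝟙 M + (2 : ℚ) • w + w ≫ w) := by
  simp only [Linear.smul_comp, Linear.comp_smul, Preadditive.add_comp, Preadditive.comp_add,
    Category.id_comp, Category.comp_id, smul_smul, smul_add]
  norm_num
  have e1 : ((1 / 2 : ℚ)) • w = (1 / 4 : ℚ) • w + (1 / 4 : ℚ) • w := by
    rw [← add_smul]; norm_num
  rw [e1]
  abel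

theorem ctr_sq_half (hU : UnitQ C) {M : C} (w : M ⟶ M) :
    ctr hU (((2⁻¹ : ℚ) • (𝟙 M + w)) ≫ ((2⁻¹ : ℚ) • (𝟙 M + w))) =
      4⁻¹ * (ctr hU (𝟙 M) + 2 * ctr hU w + ctr hU (w ≫ w)) := by
  rw [sq_half, ctr_smul, ctr_add, ctr_add, ctr_smul]

theorem ctr_cube_half (hU : UnitQ C) {M : C} (w : M ⟶ M) :
    ctr hU (((2⁻¹ : ℚ) • (𝟙 M + w)) ≫ ((2⁻¹ : ℚ) • (𝟙 M + w)) ≫ ((2⁻¹ : ℚ) • (𝟙 M + w))) =
      8⁻¹ * (ctr hU (𝟙 M) + 3 * ctr hU w + 3 * ctr hU (w ≫ w) + ctr hU (w ≫ w ≫ w)) := by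
  rw [sq_half]
  simp only [Linear.smul_comp, Linear.comp_smul, Preadditive.add_comp, Preadditive.comp_add,
    Category.id_comp, Category.comp_id, smul_smul, smul_add, ctr_add, ctr_smul]
  ring

/-- **the trace criterion** -/
theorem trace_criterion (hU : UnitQ C) {M : C} {w : M ⟶ M} (hw : RepresentsTrace R hU w) :
    (totalDim R M : ℚ) ≤ ctr hU (w ≫ w ≫ w) ∧
      List.TFAE [R.CPlus M, ctr hU (w ≫ w ≫ w) = totalDim R M,
        ctr hU (w ≫ w ≫ w) ≤ totalDim R M + 4, NumInvolution hU w,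
        ∀ N : ℕ, 1 ≤ N → Module.finrank K (R.H.obj M) ≤ N →
          (2 : K) • R.H.map (lift ((2⁻¹ : ℚ) • (𝟙 M + w)) N) = 𝟙 _ + R.par M] := by
  have hc := R_charZero R
  have h0 := R.finite M
  set z : M ⟶ M := (2⁻¹ : ℚ) • (𝟙 M + w) with hz
  obtain ⟨q, hq, hq0, htf⟩ := gap_criterion R z hw.even
  have hq1 : q = 4⁻¹ * (ctr hU (w ≫ w ≫ w) - totalDim R M) := by
    have h1 : (q : K) = ((evenDim R M - 3 * ctr hU (z ≫ z) + 2 * ctr hU (z ≫ z ≫ z) : ℚ) : K) := by
      push_cast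
      rw [hq, gap, ctr_eq R, ctr_eq R]
    have h2 : q = evenDim R M - 3 * ctr hU (z ≫ z) + 2 * ctr hU (z ≫ z ≫ z) := by exact_mod_cast h1
    rw [h2, hz, ctr_sq_half, ctr_cube_half, ctr_one R hU, hw.one]
    ring
  have hnum : NumEq R (z ≫ z) z ↔ NumInvolution hU w := by
    have e1 : z ≫ z - z = (4⁻¹ : ℚ) • (w ≫ w - 𝟙 M) := by
      rw [hz, sq_half]
      have e2 : ∀ x : M ⟶ M, (2⁻¹ : ℚ) • x = (4⁻¹ : ℚ) • x + (4⁻¹ : ℚ) • x := by
        intro x; rw [← add_smul]; norm_num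
      have e3 : ∀ x : M ⟶ M, (4⁻¹ : ℚ) • (2 : ℚ) • x = (4⁻¹ : ℚ) • x + (4⁻¹ : ℚ) • x := by
        intro x; rw [smul_smul, ← add_smul]; norm_num
      simp only [smul_add, smul_sub, e3]
      rw [e2 (𝟙 M), e2 w]
      abel
    constructor
    · intro h g
      have h1 := h g
      rw [← ctr_eq R hU, ← ctr_eq R hU, ← sub_eq_zero, ← Rat.cast_sub, ← ctr_sub,
        ← Preadditive.sub_comp, e1, Linear.smul_comp, ctr_smul] at h1
      have h2 : (4⁻¹ : ℚ) * ctr hU ((w ≫ w - 𝟙 M) ≫ g) = 0 := by exact_mod_cast h1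
      have h3 : (4⁻¹ : ℚ) ≠ 0 := by norm_num
      exact (mul_eq_zero.1 h2).resolve_left h3
    · intro h g
      rw [← ctr_eq R hU, ← ctr_eq R hU, ← sub_eq_zero, ← Rat.cast_sub, ← ctr_sub,
        ← Preadditive.sub_comp, e1, Linear.smul_comp, ctr_smul, h g, mul_zero, Rat.cast_zero]
  refine ⟨by rw [hq1] at hq0; linarith, ?_⟩
  have t1 : R.CPlus M ↔ q = 0 := htf.out 0 1
  have t2 : R.CPlus M ↔ q ≤ 1 := htf.out 0 2
  have t3 : R.CPlus M ↔ NumEq R (z ≫ z) z := htf.out 0 3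
  tfae_have 1 ↔ 2 := by
    rw [t1, hq1]
    constructor
    · intro h; linarith
    · intro h; rw [h]; ring
  tfae_have 1 ↔ 3 := by
    rw [t2, hq1]
    constructor
    · intro h; linarith
    · intro h; linarith
  tfae_have 1 ↔ 4 := by
    rw [t3, hnum]
  tfae_have 1 ↔ 5 := htf.out 0 4
  tfae_finish

/-- if the even projector is algebraic, then the parity operator represents the trace -/
theorem exists_of_cplus (hU : UnitQ C) {M : C} (h : R.CPlus M) :
    ∃ w : M ⟶ M, RepresentsTrace R hU w := by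
  have hc := R_charZero R
  obtain ⟨z, hz, -⟩ := (gap_exists R M).1 h
  refine ⟨(2 : ℚ) • z - 𝟙 M, fun g => ?_⟩
  have h1 := hz g
  rw [← ctr_eq R hU] at h1
  have h2 : ctr hU (((2 : ℚ) • z - 𝟙 M) ≫ g) = 2 * ctr hU (z ≫ g) - ctr hU g := by
    rw [Preadditive.sub_comp, Category.id_comp, Linear.smul_comp, ctr_sub, ctr_smul]
  rw [h2]
  push_cast
  rw [h1, ctr_eq R hU, evenTrace, ModuleCat.hom_smul, ModuleCat.hom_add, map_smul, map_add,
    smul_eq_mul, str]
  have h3 : (2 : K) ≠ 0 := two_ne_zero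
  field_simp
  ring

end

end Pool.Agent.N144.NC
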